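import Pool.Agent.KDT.StmtsM

/-!
# Squad KDT, row GUP: specialisations over the points of the plane curve
-/

set_option autoImplicit false

namespace Pool.Agent.KDT.Z.H41

open Polynomial

section vec

variable {F : Type} [Field F]

/-- the Mumford vector of the points `(a₁, b₁)`, `(a₂, b₂)` -/
def vec (a1 a2 b1 b2 : F) : Fin 4 → F :=
  ![a1 + a2, a1 * a2, (a1 * b2 - a2 * b1) / (a1 - a2), (b1 - b2) / (a1 - a2)]

theorem vec_eq (q : Fin 4 → F) (a1 a2 : F) (h : a1 ≠ a2) (h0 : q 0 = a1 + a2)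
    (h1 : q 1 = a1 * a2) : q = vec a1 a2 (q 3 * a1 + q 2) (q 3 * a2 + q 2) := by
  have h' : a1 - a2 ≠ 0 := sub_ne_zero.2 h
  have e2 : q 2 = (a1 * (q 3 * a2 + q 2) - a2 * (q 3 * a1 + q 2)) / (a1 - a2) := by
    rw [eq_div_iff h']
    ring
  have e3 : q 3 = ((q 3 * a1 + q 2) - (q 3 * a2 + q 2)) / (a1 - a2) := by
    rw [eq_div_iff h']
    ring
  funext i
  fin_cases i
  · exact h0
  · exact h1
  · exact e2
  · exact e3

theorem on_eval {f : F[X]} {q : Fin 4 → F} {a a' : F} (hq : On f q) (h0 : q 0 = a + a')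
    (h1 : q 1 = a * a') : (q 3 * a + q 2) ^ 2 = f.eval a := by
  obtain ⟨r, hr⟩ := hq
  have h2 := congrArg (Polynomial.eval a) hr
  rw [eval_mul, eval_sub, eval_pow] at h2
  have h3 : (pA q).eval a = 0 := by
    unfold pA
    simp only [eval_add, eval_sub, eval_pow, eval_X, eval_mul, eval_C]
    rw [h0, h1]
    ring
  have h4 : (pB q).eval a = q 3 * a + q 2 := by
    unfold pB
    simp only [eval_add, eval_X, eval_mul, eval_C]
  rw [h3, zero_mul, h4] at h2
  exact sub_eq_zero.1 h2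

theorem on_vec {f : F[X]} {a1 a2 b1 b2 : F} (h : a1 ≠ a2) (h1 : b1 ^ 2 = f.eval a1)
    (h2 : b2 ^ 2 = f.eval a2) : On f (vec a1 a2 b1 b2) := by
  have h' : a1 - a2 ≠ 0 := sub_ne_zero.2 h
  have hA : pA (vec a1 a2 b1 b2) = (X - C a1) * (X - C a2) := by
    unfold pA vec
    simp only [Matrix.cons_val_zero, Matrix.cons_val_one, map_add, map_mul]
    ring
  have hB1 : (pB (vec a1 a2 b1 b2)).eval a1 = b1 := by
    unfold pB vec
    simp only [eval_add, eval_X, eval_mul, eval_C, Matrix.cons_val]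
    field_simp
    ring
  have hB2 : (pB (vec a1 a2 b1 b2)).eval a2 = b2 := by
    unfold pB vec
    simp only [eval_add, eval_X, eval_mul, eval_C, Matrix.cons_val]
    field_simp
    ring
  unfold On
  rw [hA]
  apply IsCoprime.mul_dvd
  · exact Polynomial.isCoprime_X_sub_C_of_isUnit_sub (isUnit_iff_ne_zero.2 h')
  · rw [dvd_iff_isRoot, IsRoot.def, eval_sub, eval_pow, hB1, h1, sub_self]
  · rw [dvd_iff_isRoot, IsRoot.def, eval_sub, eval_pow, hB2, h2, sub_self]

theorem roots_exist [IsAlgClosed F] [CharZero F] (s p : F) (h : s ^ 2 ≠ 4 * p) :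
    ∃ a1 a2 : F, a1 + a2 = s ∧ a1 * a2 = p ∧ a1 ≠ a2 := by
  obtain ⟨δ, hδ⟩ := IsAlgClosed.exists_pow_nat_eq (s ^ 2 - 4 * p) (n := 2) (by norm_num)
  have h2 : (2 : F) ≠ 0 := two_ne_zero
  refine ⟨(s + δ) / 2, (s - δ) / 2, ?_, ?_, ?_⟩
  · field_simp
    ring
  · field_simp
    linear_combination -hδ
  · intro he
    have h3 : δ = 0 := by
      field_simp at he
      have h4 : 2 * δ = 0 := by linear_combination he
      exact (mul_eq_zero.1 h4).resolve_left h2
    rw [h3] at hδ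
    apply h
    linear_combination -hδ

theorem pair_eq {a1 a2 c1 c2 : F} (h1 : a1 + a2 = c1 + c2) (h2 : a1 * a2 = c1 * c2) :
    (a1 = c1 ∧ a2 = c2) ∨ (a1 = c2 ∧ a2 = c1) := by
  have h3 : (a1 - c1) * (a1 - c2) = 0 := by linear_combination a1 * h1 - h2
  rcases mul_eq_zero.1 h3 with h | h
  · left
    have h4 := sub_eq_zero.1 h
    exact ⟨h4, by rw [h4] at h1; exact add_left_cancel h1⟩
  · right
    have h4 := sub_eq_zero.1 h
    refine ⟨h4, ?_⟩
    rw [h4, add_comm c1 c2] at h1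
    exact add_left_cancel h1

end vec

section spc

variable {k U : Type} [Field k] [Field U] [Algebra k U]

theorem ev_eq {n : ℕ} (x : Fin n → k) (G : MvPolynomial (Fin n) k) :
    MvPolynomial.eval x G = MvPolynomial.aeval x G := by
  rw [MvPolynomial.aeval_def]
  rfl

/-- polynomial maps preserve specialisations -/
theorem spc_poly {x : Fin 4 → U} {y : Fin 4 → k} (h : Spc x y)
    (ψ : Fin 4 → MvPolynomial (Fin 4) k) :
    Spc (fun i => MvPolynomial.aeval x (ψ i)) (fun i => MvPolynomial.aeval y (ψ i)) := by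
  intro G hG
  rw [ev_eq]
  have h1 : MvPolynomial.aeval x (MvPolynomial.bind₁ ψ G) = 0 := by
    rw [MvPolynomial.aeval_bind₁]
    exact hG
  have h2 := h _ h1
  rw [ev_eq, MvPolynomial.aeval_bind₁] at h2
  exact h2

/-- the numerator of `G(vec)` -/
noncomputable def num (G : MvPolynomial (Fin 4) k) : MvPolynomial (Fin 4) k :=
  ∑ d ∈ G.support, MvPolynomial.C (G.coeff d) *
    ((MvPolynomial.X 0 + MvPolynomial.X 1) ^ d 0 * (MvPolynomial.X 0 * MvPolynomial.X 1) ^ d 1 *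
      (MvPolynomial.X 0 * MvPolynomial.X 3 - MvPolynomial.X 1 * MvPolynomial.X 2) ^ d 2 *
      (MvPolynomial.X 2 - MvPolynomial.X 3) ^ d 3 *
      (MvPolynomial.X 0 - MvPolynomial.X 1) ^ (∑ e ∈ G.support, (e 2 + e 3) - (d 2 + d 3)))

theorem num_eq (E : Type) [Field E] [Algebra k E] (G : MvPolynomial (Fin 4) k)
    (a1 a2 b1 b2 : E) (h : a1 ≠ a2) :
    MvPolynomial.aeval ![a1, a2, b1, b2] (num G) =
      (a1 - a2) ^ (∑ e ∈ G.support, (e 2 + e 3)) * MvPolynomial.aeval (vec a1 a2 b1 b2) G := by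
  have h' : a1 - a2 ≠ 0 := sub_ne_zero.2 h
  rw [MvPolynomial.aeval_def (vec a1 a2 b1 b2), MvPolynomial.eval₂_eq', Finset.mul_sum]
  unfold num
  rw [map_sum]
  refine Finset.sum_congr rfl fun d hd => ?_
  have hle : d 2 + d 3 ≤ ∑ e ∈ G.support, (e 2 + e 3) :=
    Finset.single_le_sum (f := fun e : Fin 4 →₀ ℕ => e 2 + e 3) (fun _ _ => Nat.zero_le _) hd
  obtain ⟨m, hm⟩ : ∃ m, ∑ e ∈ G.support, (e 2 + e 3) = (d 2 + d 3) + m :=
    ⟨_, (Nat.add_sub_of_le hle).symm⟩
  rw [hm, Nat.add_sub_cancel_left, Fin.prod_univ_four]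
  unfold vec
  simp only [map_mul, map_pow, map_add, map_sub, MvPolynomial.aeval_X, MvPolynomial.aeval_C,
    Matrix.cons_val, div_pow, pow_add]
  field_simp

theorem spc_vec {a1 a2 b1 b2 : U} {c1 c2 d1 d2 : k}
    (h : Spc ![a1, a2, b1, b2] ![c1, c2, d1, d2]) (ha : a1 ≠ a2) (hc : c1 ≠ c2) :
    Spc (vec a1 a2 b1 b2) (vec c1 c2 d1 d2) := by
  intro G hG
  rw [ev_eq]
  have h1 : MvPolynomial.aeval ![a1, a2, b1, b2] (num G) = 0 := by
    rw [num_eq U G a1 a2 b1 b2 ha, hG, mul_zero]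
  have h2 := h _ h1
  rw [ev_eq, num_eq k G c1 c2 d1 d2 hc] at h2
  exact (mul_eq_zero.1 h2).resolve_left (pow_ne_zero _ (sub_ne_zero.2 hc))

theorem integral_root (A : Subalgebra k U) {s p a a' : U} (hs : s ∈ A) (hp : p ∈ A)
    (h1 : a + a' = s) (h2 : a * a' = p) : IsIntegral A a := by
  refine ⟨X ^ 2 + (C (-(⟨s, hs⟩ : A)) * X + C (⟨p, hp⟩ : A)), ?_, ?_⟩
  · apply monic_X_pow_add
    refine lt_of_le_of_lt degree_linear_le ?_
    norm_num
  · rw [eval₂_add, eval₂_add, eval₂_mul, eval₂_pow, eval₂_X, eval₂_C, eval₂_C]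
    have e1 : algebraMap A U (-(⟨s, hs⟩ : A)) = -s := by
      rw [map_neg]
      rfl
    have e2 : algebraMap A U (⟨p, hp⟩ : A) = p := rfl
    rw [e1, e2, ← h1, ← h2]
    ring

theorem integral_aeval (A : Subalgebra k U) {a : U} (ha : IsIntegral A a) (f : k[X]) :
    IsIntegral A (aeval a f) := by
  rw [aeval_eq_sum_range]
  refine IsIntegral.sum _ fun i _ => ?_
  rw [Algebra.smul_def]
  refine IsIntegral.mul ?_ (ha.pow i)
  have e1 : algebraMap k U (f.coeff i) = algebraMap A U (algebraMap k A (f.coeff i)) := rfl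
  rw [e1]
  exact isIntegral_algebraMap

theorem spl_app (spl : SplStatement) {f : k[X]} {g : U[X]} (hE : Env k U f g) {s p : U}
    {s0 p0 : k} (hG : ∀ G : MvPolynomial (Fin 2) k, Zr G s p → MvPolynomial.eval ![s0, p0] G = 0)
    {a1 a2 b1 b2 : U} (h1 : a1 + a2 = s) (h2 : a1 * a2 = p) (h3 : b1 ^ 2 = g.eval a1)
    (h4 : b2 ^ 2 = g.eval a2) :
    ∃ c1 c2 d1 d2 : k, c1 + c2 = s0 ∧ c1 * c2 = p0 ∧ d1 ^ 2 = f.eval c1 ∧ d2 ^ 2 = f.eval c2 ∧
      Spc ![a1, a2, b1, b2] ![c1, c2, d1, d2] := by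
  have : IsAlgClosed k := hE.kc
  have hgm : ∀ a : U, g.eval a = aeval a f := by
    intro a
    rw [hE.gm, eval_map, aeval_def]
  obtain ⟨A, hA⟩ : ∃ A : Subalgebra k U, A = Algebra.adjoin k {s, p} := ⟨_, rfl⟩
  have hs : s ∈ A := by
    rw [hA]
    exact Algebra.subset_adjoin (by simp)
  have hp : p ∈ A := by
    rw [hA]
    exact Algebra.subset_adjoin (by simp)
  have i1 : IsIntegral A a1 := integral_root A hs hp h1 h2
  have i2 : IsIntegral A a2 := integral_root A hs hp (by rw [add_comm]; exact h1)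
    (by rw [mul_comm]; exact h2)
  have i3 : IsIntegral A b1 := by
    apply IsIntegral.of_pow (n := 2) (by norm_num)
    rw [h3, hgm]
    exact integral_aeval A i1 f
  have i4 : IsIntegral A b2 := by
    apply IsIntegral.of_pow (n := 2) (by norm_num)
    rw [h4, hgm]
    exact integral_aeval A i2 f
  obtain ⟨w, hw⟩ := spl k U s p s0 p0 hG ![a1, a2, b1, b2] (by
    rw [← hA]
    intro i
    fin_cases i
    · exact i1
    · exact i2
    · exact i3
    · exact i4)
  have hw' : ∀ G : MvPolynomial (Fin 6) k, MvPolynomial.aeval ![s, p, a1, a2, b1, b2] G = 0 →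
      MvPolynomial.aeval ![s0, p0, w 0, w 1, w 2, w 3] G = 0 := by
    intro G hG'
    rw [← ev_eq]
    exact hw G hG'
  refine ⟨w 0, w 1, w 2, w 3, ?_, ?_, ?_, ?_, ?_⟩
  · have h5 := hw' (MvPolynomial.X 2 + MvPolynomial.X 3 - MvPolynomial.X 0) (by
      simp only [map_sub, map_add, MvPolynomial.aeval_X, Matrix.cons_val]
      rw [h1, sub_self])
    simp only [map_sub, map_add, MvPolynomial.aeval_X, Matrix.cons_val] at h5
    exact sub_eq_zero.1 h5
  · have h5 := hw' (MvPolynomial.X 2 * MvPolynomial.X 3 - MvPolynomial.X 1) (by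
      simp only [map_sub, map_mul, MvPolynomial.aeval_X, Matrix.cons_val]
      rw [h2, sub_self])
    simp only [map_sub, map_mul, MvPolynomial.aeval_X, Matrix.cons_val] at h5
    exact sub_eq_zero.1 h5
  · have h5 := hw' (MvPolynomial.X 4 ^ 2 - aeval (MvPolynomial.X 2 : MvPolynomial (Fin 6) k) f) (by
      rw [map_sub, map_pow, ← Polynomial.aeval_algHom_apply, MvPolynomial.aeval_X,
        MvPolynomial.aeval_X]
      simp only [Matrix.cons_val]
      rw [h3, hgm, sub_self])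
    rw [map_sub, map_pow, ← Polynomial.aeval_algHom_apply, MvPolynomial.aeval_X,
      MvPolynomial.aeval_X] at h5
    simp only [Matrix.cons_val] at h5
    rw [sub_eq_zero.1 h5, coe_aeval_eq_eval]
  · have h5 := hw' (MvPolynomial.X 5 ^ 2 - aeval (MvPolynomial.X 3 : MvPolynomial (Fin 6) k) f) (by
      rw [map_sub, map_pow, ← Polynomial.aeval_algHom_apply, MvPolynomial.aeval_X,
        MvPolynomial.aeval_X]
      simp only [Matrix.cons_val]
      rw [h4, hgm, sub_self])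
    rw [map_sub, map_pow, ← Polynomial.aeval_algHom_apply, MvPolynomial.aeval_X,
      MvPolynomial.aeval_X] at h5
    simp only [Matrix.cons_val] at h5
    rw [sub_eq_zero.1 h5, coe_aeval_eq_eval]
  · intro G hG'
    have e1 : (![s, p, a1, a2, b1, b2] : Fin 6 → U) ∘ (![2, 3, 4, 5] : Fin 4 → Fin 6) =
        ![a1, a2, b1, b2] := by
      funext i
      fin_cases i <;> rfl
    have e2 : (![s0, p0, w 0, w 1, w 2, w 3] : Fin 6 → k) ∘ (![2, 3, 4, 5] : Fin 4 → Fin 6) =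
        ![w 0, w 1, w 2, w 3] := by
      funext i
      fin_cases i <;> rfl
    have h5 := hw' (MvPolynomial.rename (![2, 3, 4, 5] : Fin 4 → Fin 6) G) (by
      rw [MvPolynomial.aeval_rename, e1]
      exact hG')
    rw [MvPolynomial.aeval_rename, e2] at h5
    rw [ev_eq]
    exact h5

theorem spc_swap {a1 a2 b1 b2 : U} {c1 c2 d1 d2 : k}
    (h : Spc ![a1, a2, b1, b2] ![c1, c2, d1, d2]) : Spc ![a2, a1, b2, b1] ![c2, c1, d2, d1] := by
  have h1 := spc_poly h ![MvPolynomial.X 1, MvPolynomial.X 0, MvPolynomial.X 3, MvPolynomial.X 2]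
  have e1 : (fun i => MvPolynomial.aeval ![a1, a2, b1, b2] ((![MvPolynomial.X 1,
      MvPolynomial.X 0, MvPolynomial.X 3, MvPolynomial.X 2] : Fin 4 → MvPolynomial (Fin 4) k) i)) =
      ![a2, a1, b2, b1] := by
    funext i
    fin_cases i <;> simp
  have e2 : (fun i => MvPolynomial.aeval ![c1, c2, d1, d2] ((![MvPolynomial.X 1,
      MvPolynomial.X 0, MvPolynomial.X 3, MvPolynomial.X 2] : Fin 4 → MvPolynomial (Fin 4) k) i)) =
      ![c2, c1, d2, d1] := by
    funext i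
    fin_cases i <;> simp
  rw [e1, e2] at h1
  exact h1

theorem spc_neg {a1 a2 b1 b2 : U} {c1 c2 d1 d2 : k}
    (h : Spc ![a1, a2, b1, b2] ![c1, c2, d1, d2]) : Spc ![a1, a2, -b1, b2] ![c1, c2, -d1, d2] := by
  have h1 := spc_poly h ![MvPolynomial.X 0, MvPolynomial.X 1, -MvPolynomial.X 2,
    MvPolynomial.X 3]
  have e1 : (fun i => MvPolynomial.aeval ![a1, a2, b1, b2] ((![MvPolynomial.X 0,
      MvPolynomial.X 1, -MvPolynomial.X 2, MvPolynomial.X 3] :
        Fin 4 → MvPolynomial (Fin 4) k) i)) = ![a1, a2, -b1, b2] := by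
    funext i
    fin_cases i <;> simp
  have e2 : (fun i => MvPolynomial.aeval ![c1, c2, d1, d2] ((![MvPolynomial.X 0,
      MvPolynomial.X 1, -MvPolynomial.X 2, MvPolynomial.X 3] :
        Fin 4 → MvPolynomial (Fin 4) k) i)) = ![c1, c2, -d1, d2] := by
    funext i
    fin_cases i <;> simp
  rw [e1, e2] at h1
  exact h1

/-- the sign of the first point can be chosen -/
theorem spc_sign {a1 a2 b1 b2 : U} {c1 c2 d1 d2 e1 : k}
    (h : Spc ![a1, a2, b1, b2] ![c1, c2, d1, d2]) (hd : d1 ^ 2 = e1 ^ 2) :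
    ∃ b1' : U, b1' ^ 2 = b1 ^ 2 ∧ Spc ![a1, a2, b1', b2] ![c1, c2, e1, d2] := by
  rcases sq_eq_sq_iff_eq_or_eq_neg.1 hd with h1 | h1
  · rw [h1] at h
    exact ⟨b1, rfl, h⟩
  · have h2 := spc_neg h
    rw [h1, neg_neg] at h2
    exact ⟨-b1, by ring, h2⟩

end spc

theorem gup (spl : SplStatement) (ird : IrdStatement) (_spo : SpoStatement) : GupStatement := by
  intro k U _ _ _ f g hE Φ hΦ
  have hk : IsAlgClosed k := hE.kc
  have hU : IsAlgClosed U := hE.oc
  have hc : CharZero k := hE.ch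
  have hcU : CharZero U := charZero_of_injective_algebraMap (algebraMap k U).injective
  -- the hypothesis of SPL
  have hG : ∀ (s p : U) (s0 p0 : k), Zr Φ s p →
      ¬ (s ∈ (algebraMap k U).range ∧ p ∈ (algebraMap k U).range) → Zr Φ s0 p0 →
      ∀ G : MvPolynomial (Fin 2) k, Zr G s p → MvPolynomial.eval ![s0, p0] G = 0 := by
    intro s p s0 p0 h1 h2 h3 G h4
    obtain ⟨H, hH⟩ := ird.1 k U s p Φ G hΦ h1 h2 h4
    rw [hH, map_mul, ev_eq ![s0, p0] Φ]
    have h5 : MvPolynomial.aeval ![s0, p0] Φ = 0 := h3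
    rw [h5, zero_mul]
  constructor
  · intro q hq hgen hne hzr s0 p0 hz0 hne0
    obtain ⟨a1, a2, h1, h2, h3⟩ := roots_exist (q 0) (q 1) hne
    have h4 := on_eval hq h1.symm h2.symm
    have h5 := on_eval hq (a := a2) (a' := a1) (by rw [add_comm]; exact h1.symm)
      (by rw [mul_comm]; exact h2.symm)
    obtain ⟨c1, c2, d1, d2, e1, e2, e3, e4, e5⟩ := spl_app spl hE
      (hG (q 0) (q 1) s0 p0 hzr hgen hz0) h1 h2 h4 h5
    have hc12 : c1 ≠ c2 := by
      intro h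
      apply hne0
      rw [← e1, ← e2, h]
      ring
    refine ⟨vec c1 c2 d1 d2, on_vec hc12 e3 e4, e1, e2, ?_⟩
    have h6 := spc_vec e5 h3 hc12
    rw [← vec_eq q a1 a2 h3 h1.symm h2.symm] at h6
    exact h6
  · intro s p hzr hgen hne t ht hz0 hne0
    obtain ⟨c1, c2, g1, g2, g3⟩ := roots_exist (t 0) (t 1) hne0
    have g4 := on_eval ht g1.symm g2.symm
    have g5 := on_eval ht (a := c2) (a' := c1) (by rw [add_comm]; exact g1.symm)
      (by rw [mul_comm]; exact g2.symm)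
    obtain ⟨a1, a2, h1, h2, h3⟩ := roots_exist s p hne
    obtain ⟨b1, h4⟩ := IsAlgClosed.exists_pow_nat_eq (g.eval a1) (n := 2) (by norm_num)
    obtain ⟨b2, h5⟩ := IsAlgClosed.exists_pow_nat_eq (g.eval a2) (n := 2) (by norm_num)
    obtain ⟨c1', c2', d1, d2, e1, e2, e3, e4, e5⟩ := spl_app spl hE
      (hG s p (t 0) (t 1) hzr hgen hz0) h1 h2 h4 h5
    -- the roots in the right order
    have key : ∃ (a1 a2 b1 b2 : U) (d1 d2 : k), a1 + a2 = s ∧ a1 * a2 = p ∧ a1 ≠ a2 ∧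
        b1 ^ 2 = g.eval a1 ∧ b2 ^ 2 = g.eval a2 ∧ d1 ^ 2 = f.eval c1 ∧ d2 ^ 2 = f.eval c2 ∧
        Spc ![a1, a2, b1, b2] ![c1, c2, d1, d2] := by
      rcases pair_eq (e1.trans g1.symm) (e2.trans g2.symm) with ⟨h6, h7⟩ | ⟨h6, h7⟩
      · subst h6 h7
        exact ⟨a1, a2, b1, b2, d1, d2, h1, h2, h3, h4, h5, e3, e4, e5⟩
      · subst h6 h7
        exact ⟨a2, a1, b2, b1, d2, d1, by rw [add_comm]; exact h1, by rw [mul_comm]; exact h2,
          h3.symm, h5, h4, e4, e3, spc_swap e5⟩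
    obtain ⟨a1, a2, b1, b2, d1, d2, h1, h2, h3, h4, h5, e3, e4, e5⟩ := key
    obtain ⟨b1', h6, e6⟩ := spc_sign e5 (e3.trans g4.symm)
    obtain ⟨b2', h7, e7⟩ := spc_sign (spc_swap e6) (e4.trans g5.symm)
    have e8 := spc_swap e7
    refine ⟨vec a1 a2 b1' b2', on_vec h3 (h6.trans h4) (h7.trans h5), h1, h2, ?_⟩
    have h8 := spc_vec e8 h3 g3
    rw [← vec_eq t c1 c2 g3 g1.symm g2.symm] at h8
    exact h8

end Pool.Agent.KDT.Z.H41
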